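import Pool.Agent.H88.B2.Targets2

/-!
# Row DHL (board bpd_modules)
-/

set_option autoImplicit false

namespace Pool.Agent.H23.B2.DHL

open MeasureTheory Set
open Pool.Agent.H83.G Pool.Agent.H88.B2
open Pool.Agent.H22.G4 (nv Ind)
open scoped ENNReal NNReal RealInnerProductSpace

theorem pf_DHL (hHL : T_HL) (hDMU : T_DMU) (hDA1 : T_DA1) : T_DHL := by
  classical
  intro L β Ψ ψ δ b₀ B ε₀
  by_cases hδ : 0 < δ ∧ δ ≤ 1 / 100
  swap
  · refine ⟨0, fun N _ => ⟨1, le_rfl, ?_⟩⟩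
    intro κ R P A H En G c z₀ S a b l k QQ X M₁ M i _ hd
    exact absurd ⟨hd.d0, by have := hd.d1; linarith⟩ hδ
  obtain ⟨N1, hN1⟩ := hHL δ hδ.1 hδ.2
  obtain ⟨N2, hN2⟩ := hDA1 L β Ψ ψ δ b₀ B ε₀
  obtain ⟨N3, hN3⟩ := hDMU L β Ψ ψ δ b₀ B ε₀
  refine ⟨max N1 (max N2 N3), fun N hN => ?_⟩
  obtain ⟨CH, hCH, h1⟩ := hN1 N (le_trans (le_max_left _ _) hN)
  obtain ⟨CA, hCA, h2⟩ := hN2 N
    (le_trans (le_trans (le_max_left _ _) (le_max_right _ _)) hN)
  obtain ⟨CD, hCD, h3⟩ := hN3 N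
    (le_trans (le_trans (le_max_right _ _) (le_max_right _ _)) hN)
  have hB0 := abs_nonneg B
  have hAH : 0 < CA * CH := by positivity
  refine ⟨CA * CH + CA + CH + CD + |B|, by linarith, ?_⟩
  obtain ⟨C, hCdef⟩ : ∃ C : ℝ, C = CA * CH + CA + CH + CD + |B| := ⟨_, rfl⟩
  rw [← hCdef]
  intro κ R P A H En G c z₀ S a b l k QQ X M₁ M i hC hd hM1 hM hX
  have hR0 : 0 < R := by have := hd.R1; linarith
  have hR1 := hd.R1
  have hd0 := hd.d0
  have hd1 := hd.d1
  have he0 := hd.e0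
  have hM0 : 0 < M := by linarith
  have hM10 : 0 < M₁ := lt_of_lt_of_le (Real.rpow_pos_of_pos hR0 _) hM1
  rcases X.eq_empty_or_nonempty with hXe | hXn
  · rw [hXe]
    simp only [Finset.card_empty, Nat.cast_zero, zero_mul]
    have := Real.rpow_nonneg hR0.le (la * (δ + ε₀))
    have := Real.rpow_nonneg hR0.le (1 / 2 : ℝ)
    have hC0 : 0 ≤ C := by rw [hCdef]; linarith
    positivity
  obtain ⟨_, _, _, _, hNd, hballs⟩ :=
    h2 κ R P A H En G c z₀ S a b l k QQ X (by linarith) hd hXn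
  have hBR : B ≤ R ^ (2 : ℝ) := by
    have e1 : B ≤ R ^ δ := by
      have := le_abs_self B
      linarith
    exact e1.trans (Real.rpow_le_rpow_of_exponent_le hR1 (by linarith))
  have hBR10 : B * R ^ (8 : ℝ) ≤ R ^ (10 : ℝ) := by
    calc B * R ^ (8 : ℝ) ≤ R ^ (2 : ℝ) * R ^ (8 : ℝ) :=
          mul_le_mul_of_nonneg_right hBR (Real.rpow_nonneg hR0.le _)
      _ = R ^ (10 : ℝ) := by
          rw [← Real.rpow_add hR0]
          norm_num
  have hlo : lo 2 = 400 := by
    unfold lo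
    norm_num
  obtain ⟨w, hw⟩ : ∃ w : ℝ, w = R ^ (1 / 8 : ℝ) := ⟨_, rfl⟩
  have hwsq : w ≤ Real.sqrt R := by
    rw [hw, Real.sqrt_eq_rpow]
    exact Real.rpow_le_rpow_of_exponent_le hR1 (by norm_num)
  obtain ⟨Pj, hPj⟩ : ∃ Pj : Zi 2 → Finset (Pk 2),
      Pj = fun j => SB QQ R (R ^ (1 - ε₀)) δ l k (S i) j := ⟨_, rfl⟩
  have hPjS : ∀ j, Pj j ⊆ S i := by
    intro j
    rw [hPj]
    unfold SB
    exact Finset.filter_subset _ _
  have hSz : ∀ z j, Bz R ε₀ z = j → Sz R δ ε₀ l k QQ (S i) z = Pj j := by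
    intro z j h
    rw [hPj, ← h]
    rfl
  have hNd0 : ∀ (w' : ℝ) (Q : Finset (Pk 2)) (z : Z 2), 0 ≤ Nd N R δ w' Q z := by
    intro w' Q z
    unfold Nd ww
    apply Finset.sum_nonneg
    intro W _
    positivity
  have hball : ∀ j ∈ X.image (Bz R ε₀), ((X.filter (fun z => Bz R ε₀ z = j)).card : ℝ) * M₁ ^ 4 ≤
      CH * R ^ (lo 2 * (8 * δ)) * w ^ 4 * M * (S i).card * R ^ 2 := by
    intro j hj
    obtain ⟨z1, hz1, hz1j⟩ := Finset.mem_image.1 hj
    have h4 := h1 R w M₁ M (Pj j) (X.filter (fun z => Bz R ε₀ z = j)) hR1 (by linarith)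
      (by
        rw [hw]
        apply Real.rpow_le_rpow_of_exponent_le hR1
        rw [hlo]
        linarith)
      (by
        rw [hw]
        exact Real.rpow_le_rpow_of_exponent_le hR1 (by norm_num))
      (by
        refine le_trans ?_ hM1
        apply Real.rpow_le_rpow_of_exponent_le hR1
        rw [hlo]
        linarith)
      (by
        have h5 := (hX z1 hz1).1
        have h6 := (hNd z1 hz1 i).2.2 (R ^ δ)
        exact (h5.trans h6).trans hBR10)
      hM0
      (by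
        intro W hW
        have h5 := hd.pk i W (hPjS j hW)
        exact ⟨h5.1, h5.2.2.1⟩)
      (by
        have h5 : ((Pj j).card : ℝ) ≤ (S i).card := by
          exact_mod_cast Finset.card_le_card (hPjS j)
        exact (h5.trans (hd.card i)).trans hBR10)
      (by
        intro z hz z' hz' hne
        exact hd.sep z (Finset.mem_filter.1 hz).1 z' (Finset.mem_filter.1 hz').1 hne)
      (by
        intro z hz
        obtain ⟨hzX, hzj⟩ := Finset.mem_filter.1 hz
        rw [← hSz z j hzj]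
        exact (hX z hzX).1)
      (by
        intro z hz w' hw'1 hw'2
        obtain ⟨hzX, hzj⟩ := Finset.mem_filter.1 hz
        rw [← hSz z j hzj]
        have h5 := (h3 κ R P A H En G c z₀ S a b l k QQ X w' M i (by linarith) hd hw'1
          (hw'2.trans hwsq) hM (fun z hz => (hX z hz).2.1) z hzX).1
        refine h5.trans ?_
        have h6 : CD ≤ R ^ (lo 2 * δ) := by
          refine le_trans (by linarith : CD ≤ R ^ δ) ?_
          apply Real.rpow_le_rpow_of_exponent_le hR1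
          rw [hlo]
          linarith
        have h7 : 0 ≤ w' := le_trans (Real.rpow_nonneg hR0.le _) hw'1
        exact mul_le_mul_of_nonneg_right (mul_le_mul_of_nonneg_right h6 h7) hM0.le)
      (by
        intro z hz
        obtain ⟨hzX, hzj⟩ := Finset.mem_filter.1 hz
        rw [← hSz z j hzj]
        have h5 := (hX z hzX).2.2
        rw [← hw] at h5
        refine lt_of_le_of_lt ?_ h5
        refine mul_le_mul_of_nonneg_right ?_ (hNd0 _ _ _)
        refine mul_le_mul (by linarith) ?_ (Real.rpow_nonneg hR0.le _) (by linarith)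
        apply Real.rpow_le_rpow_of_exponent_le hR1
        rw [hlo]
        unfold la
        linarith)
    refine h4.trans ?_
    have h5 : ((Pj j).card : ℝ) ≤ (S i).card := by
      exact_mod_cast Finset.card_le_card (hPjS j)
    have h6 : 0 ≤ CH * R ^ (lo 2 * (8 * δ)) * w ^ 4 * M := by
      have := Real.rpow_nonneg hR0.le (lo 2 * (8 * δ))
      positivity
    exact mul_le_mul_of_nonneg_right (mul_le_mul_of_nonneg_left h5 h6) (by positivity)
  have hXsum : (X.card : ℝ) = ∑ j ∈ X.image (Bz R ε₀),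
      ((X.filter (fun z => Bz R ε₀ z = j)).card : ℝ) := by
    have e1 : X.card = ∑ j ∈ X.image (Bz R ε₀), (X.filter (fun z => Bz R ε₀ z = j)).card := by
      apply Finset.card_eq_sum_card_fiberwise
      intro z hz
      exact Finset.mem_coe.2 (Finset.mem_image_of_mem _ (Finset.mem_coe.1 hz))
    rw [e1]
    push_cast
    rfl
  have hw4 : w ^ 4 = R ^ (1 / 2 : ℝ) := by
    rw [hw, ← Real.rpow_natCast, ← Real.rpow_mul hR0.le]
    norm_num
  have hT0 : 0 ≤ CH * R ^ (lo 2 * (8 * δ)) * w ^ 4 * M * (S i).card * R ^ 2 := by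
    have := Real.rpow_nonneg hR0.le (lo 2 * (8 * δ))
    have hw0 : 0 ≤ w := by rw [hw]; exact Real.rpow_nonneg hR0.le _
    positivity
  have hRR : R ^ (4 * ε₀) * R ^ (lo 2 * (8 * δ)) ≤ R ^ (la * (δ + ε₀)) := by
    rw [← Real.rpow_add hR0]
    apply Real.rpow_le_rpow_of_exponent_le hR1
    rw [hlo]
    unfold la
    linarith
  have hU0 : 0 ≤ R ^ (1 / 2 : ℝ) * M * (S i).card * R ^ 2 := by
    have := Real.rpow_nonneg hR0.le (1 / 2 : ℝ)
    positivity
  calc (X.card : ℝ) * M₁ ^ 4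
      = ∑ j ∈ X.image (Bz R ε₀), ((X.filter (fun z => Bz R ε₀ z = j)).card : ℝ) * M₁ ^ 4 := by
        rw [hXsum, Finset.sum_mul]
    _ ≤ ∑ _j ∈ X.image (Bz R ε₀), CH * R ^ (lo 2 * (8 * δ)) * w ^ 4 * M * (S i).card * R ^ 2 :=
        Finset.sum_le_sum hball
    _ = ((X.image (Bz R ε₀)).card : ℝ) *
        (CH * R ^ (lo 2 * (8 * δ)) * w ^ 4 * M * (S i).card * R ^ 2) := by
        rw [Finset.sum_const, nsmul_eq_mul]
    _ ≤ (CA * R ^ (4 * ε₀)) *
        (CH * R ^ (lo 2 * (8 * δ)) * w ^ 4 * M * (S i).card * R ^ 2) :=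
        mul_le_mul_of_nonneg_right hballs hT0
    _ = CA * CH * (R ^ (4 * ε₀) * R ^ (lo 2 * (8 * δ))) *
        (R ^ (1 / 2 : ℝ) * M * (S i).card * R ^ 2) := by
        rw [hw4]
        ring
    _ ≤ C * R ^ (la * (δ + ε₀)) * (R ^ (1 / 2 : ℝ) * M * (S i).card * R ^ 2) := by
        refine mul_le_mul_of_nonneg_right ?_ hU0
        refine mul_le_mul (by linarith) hRR ?_ (by linarith)
        exact mul_nonneg (Real.rpow_nonneg hR0.le _) (Real.rpow_nonneg hR0.le _)
    _ = C * R ^ (la * (δ + ε₀)) * R ^ (1 / 2 : ℝ) * M * (S i).card * R ^ 2 := by ring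

end Pool.Agent.H23.B2.DHL
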