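import Pool.Agent.H88.B2.Targets2

/-!
# Row DKS (board bpd_modules)
-/

set_option autoImplicit false

namespace Pool.Agent.H23.B2.DKS

open MeasureTheory Set
open Pool.Agent.H83.G Pool.Agent.H88.B2
open Pool.Agent.H22.G4 (nv Ind)
open Pool.Agent.H22.G (co)
open scoped ENNReal NNReal RealInnerProductSpace

open Classical in
private theorem mu_eq {m : ℕ} (QQ : Finset (Zi m)) (R r δ : ℝ) (T : Pk m) (B : Zi m) :
    mu QQ R r δ T B = (QQ.filter fun q => bl R r q = B ∧ Inc R δ T q).card := by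
  unfold mu
  congr

open Classical in
private theorem nB_eq {m : ℕ} (QQ : Finset (Zi m)) (R r δ : ℝ) (l : ℕ) (T : Pk m) :
    nB QQ R r δ l T = ((QQ.image (bl R r)).filter
      fun B => 2 ^ l ≤ mu QQ R r δ T B ∧ mu QQ R r δ T B < 2 ^ (l + 1)).card := by
  unfold nB
  congr

theorem pf_DKS (hKST : Pool.Agent.H82.FP.T_KST) (hDA1 : T_DA1) : T_DKS := by
  classical
  obtain ⟨CK, E, hCK, hE, hK⟩ := hKST
  refine ⟨2 * E + 1, by linarith, ?_⟩
  intro L β Ψ ψ δ b₀ B ε₀ hδε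
  obtain ⟨N2, hN2⟩ := hDA1 L β Ψ ψ δ b₀ B ε₀
  refine ⟨N2, fun N hN => ?_⟩
  obtain ⟨C2, hC2, h2⟩ := hN2 N hN
  have h2E : (0 : ℝ) < 2 ^ E := Real.rpow_pos_of_pos (by norm_num) E
  have hCE : 0 < 16 * CK * 2 ^ E := by positivity
  refine ⟨C2 + CK + 16 * CK * 2 ^ E, by linarith, ?_⟩
  intro κ R P A H En G c z₀ S a b l k QQ X M ν D hC hd hk hM hMt hXn hν hD hνD hfib
  obtain ⟨_, _, hInd, _, _, _⟩ := h2 κ R P A H En G c z₀ S a b l k QQ X (by linarith) hd hXn
  have hR0 : 0 < R := by have := hd.R1; linarith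
  have hP0 : 0 < P := by have := hd.P1; linarith
  have hδ0 := hd.d0
  have hε0 := hd.e0
  obtain ⟨r, hr⟩ : ∃ r : ℝ, r = R ^ (1 - ε₀) := ⟨_, rfl⟩
  obtain ⟨Q4, hQ4⟩ : ∃ Q4 : Finset (Zi 2), Q4 = X.image (cb (Real.sqrt R)) := ⟨_, rfl⟩
  have hQ4sub : Q4 ⊆ QQ := by
    rw [hQ4]
    intro q hq
    obtain ⟨z, hz, rfl⟩ := Finset.mem_image.1 hq
    exact hd.cube z hz
  obtain ⟨g1, g2⟩ := hK R δ ε₀ (2 * P) z₀ (fun i => (S i).image (tb R)) QQ Q4
    (fun _ T B' => Sh QQ R r δ l k T B') M (fun _ => k) (fun _ => l) hd.R1 hδ0.le hε0.le hδε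
    (by have := hd.P1; linarith)
    (by
      intro i T hT
      obtain ⟨W, hW, rfl⟩ := Finset.mem_image.1 hT
      exact (hd.pk i W hW).2.2.1)
    (by
      intro T hT
      have hT' : ∀ i, ∃ W, W ∈ S i ∧ tb R W = T i := fun i => by
        obtain ⟨W, hW, h⟩ := Finset.mem_image.1 (hT i)
        exact ⟨W, hW, h⟩
      choose W hW hWT using hT'
      have h3 := hInd W hW
      have e : (fun i => ctr (sR R) (T i).1) = fun i => ctr (sR R) (W i).1 := by
        funext i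
        rw [← hWT i]
        rfl
      rw [e]
      exact h3)
    (fun q hq => hd.cubes q hq) hQ4sub (fun i => (hM i).le)
    (by
      intro i q hq
      rw [hQ4] at hq
      obtain ⟨z, hz, rfl⟩ := Finset.mem_image.1 hq
      rw [hr]
      exact hMt z hz i)
    (by
      intro i T _ B' hPr
      have h3 : 2 ^ l ≤ mu QQ R r δ T B' := hPr.1
      have h4 : mu QQ R r δ T B' < 2 ^ (l + 1) := hPr.2.1
      rw [mu_eq, hr] at h3 h4
      exact ⟨h3, h4⟩)
    (by
      intro i T _ B' hPr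
      have h3 : 2 ^ k ≤ nB QQ R r δ l T := hPr.2.2.1
      have h4 : nB QQ R r δ l T < 2 ^ (k + 1) := hPr.2.2.2
      have e : ((QQ.image (bl R (R ^ (1 - ε₀)))).filter
          fun B'' => Sh QQ R r δ l k T B'').card = nB QQ R r δ l T := by
        rw [nB_eq, hr]
        congr 1
        apply Finset.filter_congr
        intro B'' _
        rw [hr] at h3 h4
        constructor
        · intro h
          exact ⟨h.1, h.2.1⟩
        · intro h
          exact ⟨h.1, h.2, h3, h4⟩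
      rw [e]
      exact ⟨h3, h4⟩)
    (fun _ => by linarith)
  obtain ⟨y, hy⟩ : ∃ y : ℝ, y = 2 ^ (l + k) := ⟨_, rfl⟩
  have hy1 : 1 ≤ y := by
    rw [hy]
    exact one_le_pow₀ (by norm_num)
  rw [← hQ4]
  have hQ4n : Q4.Nonempty := by
    rw [hQ4]
    exact hXn.image _
  have hq0 : (0 : ℝ) < Q4.card := by exact_mod_cast hQ4n.card_pos
  refine ⟨y, hy1, ?_, ?_⟩
  · intro i
    rw [hy]
    exact g1 i
  -- the number of cubes
  have hXcard : (X.card : ℝ) ≤ Q4.card * (2 * ν) := by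
    have e1 : X.card = ∑ q ∈ Q4, (X.filter (fun z => cb (Real.sqrt R) z = q)).card := by
      apply Finset.card_eq_sum_card_fiberwise
      intro z hz
      rw [hQ4]
      exact Finset.mem_coe.2 (Finset.mem_image_of_mem _ (Finset.mem_coe.1 hz))
    rw [e1]
    push_cast
    calc ∑ q ∈ Q4, ((X.filter (fun z => cb (Real.sqrt R) z = q)).card : ℝ)
        ≤ ∑ _q ∈ Q4, 2 * ν := Finset.sum_le_sum fun q _ => hfib q
      _ = Q4.card * (2 * ν) := by rw [Finset.sum_const, nsmul_eq_mul]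
  have hQQ : (QQ.card : ℝ) ≤ 2 * D * Q4.card := by
    have h3 : ν * (QQ.card : ℝ) ≤ ν * (2 * D * Q4.card) := by
      calc ν * (QQ.card : ℝ) ≤ D * X.card := hνD
        _ ≤ D * (Q4.card * (2 * ν)) := mul_le_mul_of_nonneg_left hXcard (by linarith)
        _ = ν * (2 * D * Q4.card) := by ring
    exact le_of_mul_le_mul_left h3 hν
  have hPE : (2 * P) ^ E ≤ 2 ^ E * R ^ (E * ε₀) := by
    rw [Real.mul_rpow (by norm_num) hP0.le]
    refine mul_le_mul_of_nonneg_left ?_ h2E.le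
    calc P ^ E ≤ (R ^ ε₀) ^ E := Real.rpow_le_rpow hP0.le hd.PR hE
      _ = R ^ (E * ε₀) := by
        rw [← Real.rpow_mul hR0.le]
        congr 1
        ring
  have hRR : R ^ (E * ε₀) * R ^ (E * (δ + ε₀)) ≤ R ^ ((2 * E + 1) * (δ + ε₀)) := by
    rw [← Real.rpow_add hR0]
    apply Real.rpow_le_rpow_of_exponent_le hd.R1
    nlinarith [mul_nonneg hE hδ0.le]
  have hQ44 : (QQ.card : ℝ) ^ 4 ≤ (2 * D * Q4.card) ^ 4 :=
    pow_le_pow_left₀ (Nat.cast_nonneg _) hQQ 4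
  have hRpos : 0 ≤ R ^ (E * (δ + ε₀)) := Real.rpow_nonneg hR0.le _
  have hRpos2 : 0 ≤ R ^ ((2 * E + 1) * (δ + ε₀)) := Real.rpow_nonneg hR0.le _
  have hmain : (Q4.card : ℝ) * ∏ i, (M i * y) ≤
      Q4.card * ((C2 + CK + 16 * CK * 2 ^ E) * R ^ ((2 * E + 1) * (δ + ε₀)) * D ^ 4 *
        (Q4.card : ℝ) ^ 3) := by
    calc (Q4.card : ℝ) * ∏ i, (M i * y)
        ≤ CK * (2 * P) ^ E * R ^ (E * (δ + ε₀)) * (QQ.card : ℝ) ^ 4 := by
          rw [hy]
          exact g2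
      _ ≤ CK * (2 ^ E * R ^ (E * ε₀)) * R ^ (E * (δ + ε₀)) * (2 * D * Q4.card) ^ 4 := by
          refine mul_le_mul ?_ hQ44 (by positivity) ?_
          · refine mul_le_mul_of_nonneg_right ?_ hRpos
            exact mul_le_mul_of_nonneg_left hPE (by linarith)
          · have : 0 ≤ R ^ (E * ε₀) := Real.rpow_nonneg hR0.le _
            positivity
      _ = Q4.card * (16 * CK * 2 ^ E * (R ^ (E * ε₀) * R ^ (E * (δ + ε₀))) * D ^ 4 *
          (Q4.card : ℝ) ^ 3) := by ring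
      _ ≤ Q4.card * ((C2 + CK + 16 * CK * 2 ^ E) * R ^ ((2 * E + 1) * (δ + ε₀)) * D ^ 4 *
          (Q4.card : ℝ) ^ 3) := by
          refine mul_le_mul_of_nonneg_left ?_ hq0.le
          refine mul_le_mul_of_nonneg_right (mul_le_mul_of_nonneg_right ?_ (by positivity))
            (by positivity)
          calc 16 * CK * 2 ^ E * (R ^ (E * ε₀) * R ^ (E * (δ + ε₀)))
              ≤ 16 * CK * 2 ^ E * R ^ ((2 * E + 1) * (δ + ε₀)) :=
                mul_le_mul_of_nonneg_left hRR hCE.le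
            _ ≤ (C2 + CK + 16 * CK * 2 ^ E) * R ^ ((2 * E + 1) * (δ + ε₀)) :=
                mul_le_mul_of_nonneg_right (by linarith) hRpos2
  exact le_of_mul_le_mul_left hmain hq0

end Pool.Agent.H23.B2.DKS
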