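import Pool.Agent.H88.B2.Targets2

/-!
# Row DLW (board bpd_modules)
-/

set_option autoImplicit false

namespace Pool.Agent.H23.B2.DLW

open MeasureTheory Set
open Pool.Agent.H83.G Pool.Agent.H88.B2
open Pool.Agent.H22.G4 (nv Ind)
open scoped ENNReal NNReal RealInnerProductSpace

private theorem exists_net (w : ℝ) (hw : 0 ≤ w) (Y : Finset (Z 2)) :
    ∃ Q : Finset (Z 2), Q ⊆ Y ∧ Sepw w Q ∧ ∀ z ∈ Y, ∃ x ∈ Q, ‖z - x‖ ≤ w := by
  classical
  induction Y using Finset.induction_on with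
  | empty =>
    refine ⟨∅, Finset.Subset.refl _, ?_, ?_⟩
    · intro z hz
      exact absurd hz (Finset.notMem_empty z)
    · intro z hz
      exact absurd hz (Finset.notMem_empty z)
  | insert a Y _ ih =>
    obtain ⟨Q, h1, h2, h3⟩ := ih
    by_cases h : ∃ x ∈ Q, ‖a - x‖ ≤ w
    · refine ⟨Q, h1.trans (Finset.subset_insert a Y), h2, ?_⟩
      intro z hz
      rcases Finset.mem_insert.1 hz with hz | hz
      · rw [hz]
        exact h
      · exact h3 z hz
    · push Not at h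
      refine ⟨insert a Q, Finset.insert_subset_insert a h1, ?_, ?_⟩
      · intro z hz z' hz' hne
        rcases Finset.mem_insert.1 hz with hz | hz
        · rcases Finset.mem_insert.1 hz' with hz' | hz'
          · exact absurd (hz.trans hz'.symm) hne
          · rw [hz]
            exact (h z' hz').le
        · rcases Finset.mem_insert.1 hz' with hz' | hz'
          · rw [hz', norm_sub_rev]
            exact (h z hz).le
          · exact h2 z hz z' hz' hne
      · intro z hz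
        rcases Finset.mem_insert.1 hz with hz | hz
        · refine ⟨a, Finset.mem_insert_self a Q, ?_⟩
          rw [hz, sub_self, norm_zero]
          exact hw
        · obtain ⟨x, hx, hxz⟩ := h3 z hz
          exact ⟨x, Finset.mem_insert_of_mem hx, hxz⟩

theorem pf_DLW (hLWW : T_LWW) (hDA1 : T_DA1) : T_DLW := by
  classical
  intro L β Ψ ψ δ b₀ B ε₀
  by_cases hδ : 0 < δ ∧ δ ≤ 1 / 100
  swap
  · refine ⟨0, fun N _ => ⟨1, le_rfl, ?_⟩⟩
    intro κ R P A H En G c z₀ S a b l k QQ X w M D _ hd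
    exact absurd ⟨hd.d0, by have := hd.d1; linarith⟩ hδ
  obtain ⟨N1, hN1⟩ := hLWW δ hδ.1 hδ.2
  obtain ⟨N2, hN2⟩ := hDA1 L β Ψ ψ δ b₀ B ε₀
  refine ⟨max N1 N2, fun N hN => ?_⟩
  obtain ⟨C1, hC1, h1⟩ := hN1 N (le_trans (le_max_left _ _) hN)
  obtain ⟨C2, hC2, h2⟩ := hN2 N (le_trans (le_max_right _ _) hN)
  refine ⟨16 * C1 + C2 + |B|, by have := abs_nonneg B; linarith, ?_⟩
  intro κ R P A H En G c z₀ S a b l k QQ X w M D hC hd hRw hwR hMD hX
  have hB0 := abs_nonneg B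
  have hR0 : 0 < R := by have := hd.R1; linarith
  have hw0 : 0 < w := lt_of_lt_of_le (Real.rpow_pos_of_pos hR0 δ) hRw
  have hnet : ∀ j : Zi 2, ∃ Q : Finset (Z 2), Q ⊆ X.filter (fun z => Bz R ε₀ z = j) ∧
      Sepw w Q ∧ ∀ z ∈ X.filter (fun z => Bz R ε₀ z = j), ∃ x ∈ Q, ‖z - x‖ ≤ w :=
    fun j => exists_net w hw0.le _
  choose Q hQ1 hQ2 hQ3 using hnet
  have hQX : ∀ j, Q j ⊆ X := fun j => (hQ1 j).trans (Finset.filter_subset _ _)
  have hQB : ∀ j, ∀ x ∈ Q j, Bz R ε₀ x = j := fun j x hx =>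
    (Finset.mem_filter.1 (hQ1 j hx)).2
  refine ⟨Q, ?_, ?_⟩
  · intro j
    refine ⟨hQX j, hQ2 j, hQB j, ?_⟩
    intro z hz hzj
    exact hQ3 j z (Finset.mem_filter.2 ⟨hz, hzj⟩)
  rcases X.eq_empty_or_nonempty with hXe | hXn
  · rw [hXe]
    simp
  obtain ⟨_, _, hInd, _, _, _⟩ := h2 κ R P A H En G c z₀ S a b l k QQ X (by linarith) hd hXn
  have hP0 : 0 < P := by have := hd.P1; linarith
  have hb1 := hd.b1
  have hcube : ∀ j, ((Q j).card : ℝ) * ∏ i, (w * D i) ≤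
      C1 * R ^ (lo 2 * δ) * (2 * P)⁻¹⁻¹ ^ 4 *
      ((Q j).image (cb (Real.sqrt R))).card * ∏ i, (M i * b) := by
    intro j
    refine h1 R (R ^ (1 - ε₀)) w (2 * P)⁻¹ S (fun _ => b) M D QQ (fun _ => l) (fun _ => k) (Q j)
      (fun _ z => z) hd.R1 (by linarith) hRw hwR (by positivity) ?_ ?_ ?_ ?_ ?_ ?_ (hQ2 j) ?_ ?_ ?_
    · apply inv_le_one_of_one_le₀
      have := hd.P1
      linarith
    · intro i W hW
      obtain ⟨e1, _, e3, _⟩ := hd.pk i W hW
      exact ⟨e1, e3⟩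
    · intro i
      refine (hd.card i).trans ?_
      have hB : B ≤ R ^ (8 : ℝ) := by
        have e1 : B ≤ R ^ δ := by
          have := le_abs_self B
          linarith
        exact e1.trans (Real.rpow_le_rpow_of_exponent_le hd.R1 (by linarith [hδ.2]))
      calc B * R ^ (8 : ℝ) ≤ R ^ (8 : ℝ) * R ^ (8 : ℝ) :=
            mul_le_mul_of_nonneg_right hB (Real.rpow_nonneg hR0.le _)
        _ = R ^ (16 : ℝ) := by
            rw [← Real.rpow_add hR0]
            norm_num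
    · exact hInd
    · intro i
      exact ⟨by linarith, hMD i⟩
    · intro i W hW
      exact (hd.tube i W hW).2
    · intro z _ i
      rw [sub_self, norm_zero]
      norm_num
    · intro z hz i
      exact (hX z (hQX j hz) i).1
    · intro z hz i
      exact (hX z (hQX j hz) i).2
  have hsum : (∑ j ∈ X.image (Bz R ε₀), (((Q j).image (cb (Real.sqrt R))).card : ℝ)) ≤
      (X.image (cb (Real.sqrt R))).card := by
    have e1 : (X.image (cb (Real.sqrt R))).card =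
        ∑ j ∈ X.image (Bz R ε₀), ((X.image (cb (Real.sqrt R))).filter
          (fun q => bl R (R ^ (1 - ε₀)) q = j)).card := by
      apply Finset.card_eq_sum_card_fiberwise
      intro q hq
      obtain ⟨z, hz, rfl⟩ := Finset.mem_image.1 (Finset.mem_coe.1 hq)
      exact Finset.mem_coe.2 (Finset.mem_image.2 ⟨z, hz, rfl⟩)
    rw [e1]
    push_cast
    apply Finset.sum_le_sum
    intro j _
    have e2 : (Q j).image (cb (Real.sqrt R)) ⊆ (X.image (cb (Real.sqrt R))).filter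
        (fun q => bl R (R ^ (1 - ε₀)) q = j) := by
      intro q hq
      obtain ⟨z, hz, rfl⟩ := Finset.mem_image.1 hq
      exact Finset.mem_filter.2 ⟨Finset.mem_image.2 ⟨z, hQX j hz, rfl⟩, hQB j z hz⟩
    exact_mod_cast Finset.card_le_card e2
  have hpos : 0 ≤ ∏ i, (M i * b) :=
    Finset.prod_nonneg fun i _ => mul_nonneg (hMD i).1.le (by linarith)
  rw [Finset.sum_mul]
  have hK0 : 0 ≤ C1 * R ^ (lo 2 * δ) * (2 * P)⁻¹⁻¹ ^ 4 := by positivity
  have hK : C1 * R ^ (lo 2 * δ) * (2 * P)⁻¹⁻¹ ^ 4 ≤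
      (16 * C1 + C2 + |B|) * R ^ (la * (δ + ε₀)) := by
    have e1 : (2 * P)⁻¹⁻¹ ^ 4 = 16 * P ^ 4 := by
      rw [inv_inv]
      ring
    have e2 : P ^ 4 ≤ R ^ (4 * ε₀) := by
      calc P ^ 4 ≤ (R ^ ε₀) ^ 4 := pow_le_pow_left₀ hP0.le hd.PR 4
        _ = R ^ (4 * ε₀) := by
          rw [← Real.rpow_natCast, ← Real.rpow_mul hR0.le]
          congr 1
          push_cast
          ring
    have e3 : R ^ (lo 2 * δ) * R ^ (4 * ε₀) ≤ R ^ (la * (δ + ε₀)) := by
      rw [← Real.rpow_add hR0]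
      apply Real.rpow_le_rpow_of_exponent_le hd.R1
      have h3 := hd.e0
      have h4 := hd.d0
      unfold lo la
      push_cast
      linarith
    have e4 : 0 ≤ R ^ (lo 2 * δ) := Real.rpow_nonneg hR0.le _
    have e5 : 0 ≤ R ^ (la * (δ + ε₀)) := Real.rpow_nonneg hR0.le _
    calc C1 * R ^ (lo 2 * δ) * (2 * P)⁻¹⁻¹ ^ 4 = 16 * C1 * (R ^ (lo 2 * δ) * P ^ 4) := by
          rw [e1]
          ring
      _ ≤ 16 * C1 * (R ^ (lo 2 * δ) * R ^ (4 * ε₀)) := by
          refine mul_le_mul_of_nonneg_left (mul_le_mul_of_nonneg_left e2 e4) (by linarith)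
      _ ≤ 16 * C1 * R ^ (la * (δ + ε₀)) := mul_le_mul_of_nonneg_left e3 (by linarith)
      _ ≤ (16 * C1 + C2 + |B|) * R ^ (la * (δ + ε₀)) :=
          mul_le_mul_of_nonneg_right (by linarith) e5
  calc ∑ j ∈ X.image (Bz R ε₀), ((Q j).card : ℝ) * ∏ i, (w * D i)
      ≤ ∑ j ∈ X.image (Bz R ε₀), C1 * R ^ (lo 2 * δ) * (2 * P)⁻¹⁻¹ ^ 4 *
        ((Q j).image (cb (Real.sqrt R))).card * ∏ i, (M i * b) :=
        Finset.sum_le_sum fun j _ => hcube j
    _ = C1 * R ^ (lo 2 * δ) * (2 * P)⁻¹⁻¹ ^ 4 *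
        (∑ j ∈ X.image (Bz R ε₀), (((Q j).image (cb (Real.sqrt R))).card : ℝ)) *
        ∏ i, (M i * b) := by
        rw [Finset.mul_sum, Finset.sum_mul]
    _ ≤ C1 * R ^ (lo 2 * δ) * (2 * P)⁻¹⁻¹ ^ 4 * (X.image (cb (Real.sqrt R))).card *
        ∏ i, (M i * b) :=
        mul_le_mul_of_nonneg_right (mul_le_mul_of_nonneg_left hsum hK0) hpos
    _ ≤ (16 * C1 + C2 + |B|) * R ^ (la * (δ + ε₀)) * (X.image (cb (Real.sqrt R))).card *
        ∏ i, (M i * b) :=
        mul_le_mul_of_nonneg_right (mul_le_mul_of_nonneg_right hK (Nat.cast_nonneg _)) hpos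

end Pool.Agent.H23.B2.DLW
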